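import Pool.Agent.W763.PB.Stm

/-!
# Project PB, part Fc: the intertwining operator `X = ⊕ X_N`
-/

set_option autoImplicit false
open MeasureTheory Filter Topology
open scoped InnerProductSpace BoundedContinuousFunction

namespace Pool.Agent.W397.PB

open Pool.Agent.W763.PB

theorem hasSum_normsq {H : ℕ → Type} [∀ N, NormedAddCommGroup (H N)] (x : lp H 2) :
    HasSum (fun N => ‖(x : ∀ N, H N) N‖ ^ 2) (‖x‖ ^ 2) := by
  have h := lp.hasSum_norm (p := 2) (by norm_num) x
  simpa using h

theorem fc (h3a : S_F3a) : S_Fc := by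
  intro L hL H _ _ _ U D X hlo hup hdr hX T hT
  have fb : ∀ N (x : H N), ∃ f : ℕ →ᵇ ℝ, (∀ n, f n = ‖D N ((U N ^ n) ((D N).symm x))‖ ^ 2) ∧
      ∀ n, |f n| ≤ 25 * ‖x‖ ^ 2 := by
    intro N x
    have hb : ∀ n, ‖(‖D N ((U N ^ n) ((D N).symm x))‖ ^ 2 : ℝ)‖ ≤ 25 * ‖x‖ ^ 2 := by
      intro n
      have h1 := hup N n ((D N).symm x)
      rw [(D N).apply_symm_apply] at h1
      rw [Real.norm_eq_abs, abs_of_nonneg (by positivity)]
      have h0 : 0 ≤ ‖D N ((U N ^ n) ((D N).symm x))‖ := norm_nonneg _
      calc ‖D N ((U N ^ n) ((D N).symm x))‖ ^ 2 ≤ (5 * ‖x‖) ^ 2 := pow_le_pow_left₀ h0 h1 2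
        _ = 25 * ‖x‖ ^ 2 := by ring
    refine ⟨BoundedContinuousFunction.ofNormedAddCommGroupDiscrete
      (fun n : ℕ => (‖D N ((U N ^ n) ((D N).symm x))‖ ^ 2 : ℝ)) (25 * ‖x‖ ^ 2) hb, ?_, ?_⟩
    · intro n; rfl
    · intro n; exact hb n
  have hconst : ∀ c : ℝ, L (BoundedContinuousFunction.const ℕ c) = c := by
    intro c
    have e : BoundedContinuousFunction.const ℕ c = c • BoundedContinuousFunction.const ℕ (1 : ℝ) := by
      ext n
      simp
    rw [e, map_smul, hL.one]
    simp
  have hXb : ∀ N (x : H N), ‖X N x‖ ≤ 5 * ‖x‖ := by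
    intro N x
    obtain ⟨f, hf, hfb⟩ := fb N x
    have h1 := hX N x f hf
    have h2 : 0 ≤ L (BoundedContinuousFunction.const ℕ (25 * ‖x‖ ^ 2) - f) := by
      apply hL.pos
      intro n
      have h3 := hfb n
      have h4 := le_abs_self (f n)
      change 0 ≤ 25 * ‖x‖ ^ 2 - f n
      linarith
    rw [map_sub, hconst, ← h1] at h2
    have h5 : ‖X N x‖ ^ 2 ≤ (5 * ‖x‖) ^ 2 := by
      calc ‖X N x‖ ^ 2 ≤ 25 * ‖x‖ ^ 2 := by linarith
        _ = (5 * ‖x‖) ^ 2 := by ring
    exact le_of_sq_le_sq h5 (by positivity)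
  have hXn : ∀ N, ‖X N‖ ≤ 5 := fun N =>
    ContinuousLinearMap.opNorm_le_bound _ (by norm_num) (hXb N)
  let Y : lp H 2 →L[ℂ] lp H 2 := lp.mapCLM 2 X (K := 5) (by norm_num) hXn
  have hY : ∀ x N, (Y x : ∀ N, H N) N = X N ((x : ∀ N, H N) N) := fun x N => rfl
  refine ⟨Y, hY, ?_, ?_⟩
  · -- dense range
    classical
    have hsing : ∀ N (z : H N), lp.single 2 N z ∈ (LinearMap.range Y.toLinearMap).topologicalClosure := by
      intro N z
      have hz : z ∈ closure (Set.range (X N)) := hdr N z
      have hc : Continuous (fun z : H N => (lp.single 2 N z : lp H 2)) :=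
        (lp.isometry_single (E := H) (p := 2) N).continuous
      have hm : Set.MapsTo (fun z : H N => (lp.single 2 N z : lp H 2)) (Set.range (X N))
          ((LinearMap.range Y.toLinearMap : Submodule ℂ (lp H 2)) : Set (lp H 2)) := by
        rintro _ ⟨w, rfl⟩
        refine ⟨lp.single 2 N w, ?_⟩
        change Y (lp.single 2 N w) = lp.single 2 N (X N w)
        ext M
        rw [hY]
        by_cases hMN : M = N
        · subst hMN
          rw [lp.single_apply_self, lp.single_apply_self]
        · rw [lp.single_apply_ne _ _ _ hMN, lp.single_apply_ne _ _ _ hMN, map_zero]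
      exact map_mem_closure hc hz hm
    intro x
    have hx : x ∈ (LinearMap.range Y.toLinearMap).topologicalClosure := by
      have hs := lp.hasSum_single (p := 2) (by norm_num) x
      refine (LinearMap.range Y.toLinearMap).isClosed_topologicalClosure.mem_of_tendsto hs
        (Eventually.of_forall fun s => ?_)
      exact Submodule.sum_mem _ fun N _ => hsing N _
    have e : ((LinearMap.range Y.toLinearMap).topologicalClosure : Set (lp H 2))
        = closure (Set.range Y) := by
      rw [Submodule.topologicalClosure_coe]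
      rfl
    have hx' : x ∈ ((LinearMap.range Y.toLinearMap).topologicalClosure : Set (lp H 2)) := hx
    rw [e] at hx'
    exact hx'
  · intro x f hf
    have hpow : ∀ (n : ℕ) N, (((T ^ n) x : lp H 2) : ∀ N, H N) N
        = D N ((U N ^ n) ((D N).symm ((x : ∀ N, H N) N))) := by
      intro n
      induction n with
      | zero =>
        intro N
        simp
      | succ n ih =>
        intro N
        rw [pow_succ', pow_succ']
        change ((T ((T ^ n) x) : lp H 2) : ∀ N, H N) N = D N (U N ((U N ^ n) ((D N).symm ((x : ∀ N, H N) N))))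
        rw [hT, ih N, (D N).symm_apply_apply]
    choose fN hfN hfNb using fun N => fb N ((x : ∀ N, H N) N)
    have hs1 : Summable fun N => 25 * ‖(x : ∀ N, H N) N‖ ^ 2 :=
      (hasSum_normsq x).summable.mul_left 25
    have hs2 : ∀ n, HasSum (fun N => fN N n) (f n) := by
      intro n
      rw [hf n]
      have h := hasSum_normsq ((T ^ n) x)
      refine h.congr_fun ?_
      intro N
      rw [hfN N n, hpow n N]
    have h1 := h3a L hL fN f (fun N => 25 * ‖(x : ∀ N, H N) N‖ ^ 2) hs1 hfNb hs2
    have h2 := hasSum_normsq (Y x)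
    have h3 : (fun N => L (fN N)) = fun N => ‖(Y x : ∀ N, H N) N‖ ^ 2 := by
      funext N
      rw [hY, hX N _ (fN N) (hfN N)]
    rw [h3] at h1
    exact h2.unique h1

end Pool.Agent.W397.PB
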